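import Pool.Agent.Helper25.HL.Goals1

/-!
# Project HL (MP_03bcbb_an), packet NU: the mean square of the label noise
-/

set_option autoImplicit false

noncomputable section

namespace Pool.Agent.Helper32.HL

open Pool.Agent.Helper25.HL

export Pool.Agent.Helper25.HL (sq)

section basic

variable {ι : Type} [Fintype ι]

theorem sq_nn (x : ι → ℂ) : 0 ≤ sq x := Finset.sum_nonneg fun _ _ ↦ by positivity

theorem l1_nn (x : ι → ℂ) : 0 ≤ l1 x := Finset.sum_nonneg fun _ _ ↦ norm_nonneg _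

theorem sq_add (x y : ι → ℂ) : sq (x + y) ≤ 2 * sq x + 2 * sq y := by
  unfold sq
  rw [Finset.mul_sum, Finset.mul_sum, ← Finset.sum_add_distrib]
  refine Finset.sum_le_sum fun t _ ↦ ?_
  have h1 := norm_add_le (x t) (y t)
  have h2 : ‖(x + y) t‖ ^ 2 ≤ (‖x t‖ + ‖y t‖) ^ 2 := pow_le_pow_left₀ (norm_nonneg _) h1 2
  nlinarith [sq_nonneg (‖x t‖ - ‖y t‖)]

theorem sq_add3 (x y z : ι → ℂ) : sq (x + y + z) ≤ 3 * (sq x + sq y + sq z) := by
  unfold sq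
  rw [← Finset.sum_add_distrib, ← Finset.sum_add_distrib, Finset.mul_sum]
  refine Finset.sum_le_sum fun t _ ↦ ?_
  have h1 : ‖(x + y + z) t‖ ≤ ‖x t‖ + ‖y t‖ + ‖z t‖ := norm_add₃_le
  have h2 : ‖(x + y + z) t‖ ^ 2 ≤ (‖x t‖ + ‖y t‖ + ‖z t‖) ^ 2 :=
    pow_le_pow_left₀ (norm_nonneg _) h1 2
  nlinarith [sq_nonneg (‖x t‖ - ‖y t‖), sq_nonneg (‖x t‖ - ‖z t‖), sq_nonneg (‖y t‖ - ‖z t‖)]

theorem sq_add4 (x y z w : ι → ℂ) : sq (x + y + z + w) ≤ 4 * (sq x + sq y + sq z + sq w) := by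
  have h1 := sq_add (x + y) (z + w)
  have h2 := sq_add x y
  have h3 := sq_add z w
  rw [add_assoc (x + y)]
  linarith

theorem sq_neg' (x : ι → ℂ) : sq (-x) = sq x := by
  unfold sq
  simp

theorem l1_sub (x y : ι → ℂ) : l1 (x - y) ≤ l1 x + l1 y := by
  unfold l1
  rw [← Finset.sum_add_distrib]
  exact Finset.sum_le_sum fun t _ ↦ norm_sub_le _ _

theorem sq_res {q : ℕ} (S : Finset (Fin q)) (x : Fin q → ℂ) : sq (res S x) ≤ sq x := by
  unfold sq res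
  refine Finset.sum_le_sum fun t _ ↦ ?_
  by_cases h : t ∈ S
  · rw [if_pos h]
  · rw [if_neg h, norm_zero, zero_pow two_ne_zero]
    positivity

theorem l1_res {q : ℕ} (S : Finset (Fin q)) (x : Fin q → ℂ) : l1 (res S x) ≤ l1 x := by
  unfold l1 res
  refine Finset.sum_le_sum fun t _ ↦ ?_
  by_cases h : t ∈ S
  · rw [if_pos h]
  · rw [if_neg h, norm_zero]
    exact norm_nonneg _

theorem res_compl {q : ℕ} {S S' : Finset (Fin q)} (h : S ⊆ S') (x : Fin q → ℂ) :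
    res Sᶜ x = res (S' \ S) x + res S'ᶜ x := by
  funext t
  show (if t ∈ Sᶜ then x t else 0) = (if t ∈ S' \ S then x t else 0) + if t ∈ S'ᶜ then x t else 0
  by_cases h1 : t ∈ S
  · have h2 : t ∈ S' := h h1
    rw [if_neg (by simp [h1]), if_neg (by simp [h1]), if_neg (by simp [h2]), add_zero]
  · by_cases h2 : t ∈ S'
    · rw [if_pos (by simp [h1]), if_pos (by simp [h1, h2]), if_neg (by simp [h2]), add_zero]
    · rw [if_pos (by simp [h1]), if_neg (by simp [h2]), if_pos (by simp [h2]), zero_add]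

end basic

theorem one_label {p q : ℕ} (hC : S_COH) (hE : S_EBF) (σ : Fin p → Fin q → Bool) (hp : 1 ≤ p)
    (hP1 : P1 σ) {δ θ Λ h R : ℝ} (hR : 1 ≤ R) (hδ : 0 < δ) (hΛ : 1 ≤ Λ)
    (hhR : 2 * h * R ≤ δ ^ 2) (hθ : 1 ≤ θ) (hLθ : 8 * Λ ≤ δ * θ)
    (hcp : (p : ℝ) ^ (-(1 / 4 : ℝ)) * ((p : ℝ) ^ (1 / 16 : ℝ) + R) ^ 2 ≤ δ ^ 2)
    {S S' : Finset (Fin q)} (hSS : S ⊆ S')
    (bm : ((Fin p → ℂ) × (Fin q → ℂ)) →ₗ[ℂ] (Fin q → ℂ))
    (hbn : ∀ x, sq (RV σ (bm x)) + sq (bm x) ≤ 4 * Λ ^ 2 * (sq x.1 + sq x.2))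
    (hbr : ∀ β, sq (RV σ (bm (RV σ β, β) - res S β)) + sq (bm (RV σ β, β) - res S β) ≤
      2 * EB σ S Λ (RV σ (res Sᶜ β)))
    (u : Fin p → ℂ) (w β bh β' : Fin q → ℂ)
    (h1 : sq (β - bh) ≤ 2 * h * R) (h2 : l1 (β - bh) ≤ R) (h3 : l1 bh ≤ R)
    (h4 : sq (u - RV σ β) + sq (w - β) ≤ δ ^ 2)
    (h5 : sq (u - RV σ β') + sq (w - β') ≤ (2 / θ) ^ 2) (h6 : l1 β' ≤ (p : ℝ) ^ (1 / 16 : ℝ)) :
    sq (RV σ (bm (u, w) - res S bh)) + sq (bm (u, w) - res S bh) ≤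
      16 * sq (RV σ (res (S' \ S) bh)) + 16 * EB σ S Λ (RV σ (res S'ᶜ bh)) + 210 * δ ^ 2 := by
  set cp : ℝ := (p : ℝ) ^ (-(1 / 4 : ℝ)) with hcpd
  have hcp0 : 0 ≤ cp := Real.rpow_nonneg (Nat.cast_nonneg _) _
  have hP0 : 0 ≤ (p : ℝ) ^ (1 / 16 : ℝ) := Real.rpow_nonneg (Nat.cast_nonneg _) _
  obtain ⟨e1, e2, -⟩ := hE p q σ S Λ hΛ
  set γ : Fin q → ℂ := β' - bh with hγ
  -- `l1 γ`
  have hl1 : l1 γ ≤ (p : ℝ) ^ (1 / 16 : ℝ) + R := by
    have := l1_sub β' bh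
    linarith
  have hcl : cp * l1 γ ^ 2 ≤ δ ^ 2 := by
    refine le_trans ?_ hcp
    exact mul_le_mul_of_nonneg_left (pow_le_pow_left₀ (l1_nn _) hl1 2) hcp0
  have hcR : cp * l1 (β - bh) ^ 2 ≤ δ ^ 2 := by
    refine le_trans ?_ hcp
    refine mul_le_mul_of_nonneg_left (pow_le_pow_left₀ (l1_nn _) ?_ 2) hcp0
    linarith
  have hθ0 : 0 < θ := by linarith
  have hθ1 : (2 / θ) ^ 2 ≤ δ ^ 2 / 16 := by
    have : 2 / θ ≤ δ / 4 := by
      rw [div_le_div_iff₀ hθ0 (by norm_num)]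
      linarith
    have h0 : 0 ≤ 2 / θ := by positivity
    nlinarith
  have hθ2 : 4 * Λ ^ 2 * (2 / θ) ^ 2 ≤ δ ^ 2 / 4 := by
    have h7 : Λ * (2 / θ) ≤ δ / 4 := by
      rw [mul_div_assoc', div_le_div_iff₀ hθ0 (by norm_num)]
      linarith
    have h0 : 0 ≤ Λ * (2 / θ) := by positivity
    have h8 : (Λ * (2 / θ)) ^ 2 ≤ (δ / 4) ^ 2 := pow_le_pow_left₀ h0 h7 2
    rw [mul_pow] at h8
    linarith
  -- `sq γ`
  have hsγ : sq γ ≤ 7 * δ ^ 2 := by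
    have a2 : γ = -(w - β') + (w - β) + (β - bh) := by
      rw [hγ]
      abel
    have a4 : sq γ ≤ 3 * (sq (w - β') + sq (w - β) + sq (β - bh)) := by
      conv_lhs => rw [a2]
      refine (sq_add3 _ _ _).trans ?_
      rw [sq_neg']
    have b1 := sq_nn (u - RV σ β')
    have b2 := sq_nn (u - RV σ β)
    linarith [sq_nonneg δ]
  -- the four parts
  set x : Fin q → ℂ := bm (RV σ bh, bh) - res S bh with hx
  set y : Fin q → ℂ := bm (RV σ γ, γ) - res S γ with hy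
  set z : Fin q → ℂ := res S γ with hz
  set v : Fin q → ℂ := bm (u - RV σ β', w - β') with hv
  have hdec : bm (u, w) - res S bh = x + y + z + v := by
    have c1 : ((u, w) : (Fin p → ℂ) × (Fin q → ℂ)) =
        (RV σ bh, bh) + (RV σ γ, γ) + (u - RV σ β', w - β') := by
      rw [hγ, map_sub]
      ext t
      · simp
      · simp
    rw [c1, map_add, map_add, hx, hy, hz, hv]
    abel
  have hX : sq (RV σ x) + sq x ≤
      4 * sq (RV σ (res (S' \ S) bh)) + 4 * EB σ S Λ (RV σ (res S'ᶜ bh)) := by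
    have c1 := hbr bh
    rw [res_compl hSS, map_add] at c1
    have c2 := e2 (RV σ (res (S' \ S) bh)) (RV σ (res S'ᶜ bh))
    have c3 := (e1 (RV σ (res (S' \ S) bh))).2
    linarith
  have hY : sq (RV σ y) + sq y ≤ 2 * (sq γ + δ ^ 2) := by
    have c1 := hbr γ
    have c2 := (e1 (RV σ (res Sᶜ γ))).2
    have c3 := hC p q σ hp hP1 (res Sᶜ γ)
    have c4 := sq_res Sᶜ γ
    have c5 : cp * l1 (res Sᶜ γ) ^ 2 ≤ δ ^ 2 := le_trans
      (mul_le_mul_of_nonneg_left (pow_le_pow_left₀ (l1_nn _) (l1_res _ _) 2) hcp0) hcl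
    linarith
  have hZ : sq (RV σ z) + sq z ≤ 2 * sq γ + δ ^ 2 := by
    have c3 := hC p q σ hp hP1 (res S γ)
    have c4 := sq_res S γ
    have c5 : cp * l1 (res S γ) ^ 2 ≤ δ ^ 2 := le_trans
      (mul_le_mul_of_nonneg_left (pow_le_pow_left₀ (l1_nn _) (l1_res _ _) 2) hcp0) hcl
    linarith
  have hV : sq (RV σ v) + sq v ≤ δ ^ 2 / 4 := by
    refine (hbn (u - RV σ β', w - β')).trans ?_
    refine le_trans ?_ hθ2
    exact mul_le_mul_of_nonneg_left h5 (by positivity)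
  have hfin1 := sq_add4 x y z v
  have hfin2 := sq_add4 (RV σ x) (RV σ y) (RV σ z) (RV σ v)
  rw [hdec, map_add, map_add, map_add]
  linarith [sq_nonneg δ]

theorem nu (h1 : S_COH) (h2 : S_EBF) : S_NU := by
  intro p q d N σ K R δ θ Λ h s eh ah bh S S' bm hp hP1 hK hR hδ hδ1 hΛ hh hhR hθ hLθ hcp hSS
    he hα hb hbm hbn hbr hsh hvl
  have hterm : ∀ j, s.ϖ j * (sq (s.e j - eh j) + sq (s.A j - ah j) +
      (sq (RV σ (bm (s.u j, s.w j) - res S (bh j))) +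
        sq (bm (s.u j, s.w j) - res S (bh j)))) ≤
      16 * (s.ϖ j * sq (RV σ (res (S' \ S) (bh j)))) +
        16 * (s.ϖ j * EB σ S Λ (RV σ (res S'ᶜ (bh j)))) + s.ϖ j * (215 * δ ^ 2) := by
    intro j
    have a1 := one_label h1 h2 σ hp hP1 hR hδ hΛ hhR hθ hLθ hcp hSS bm hbn hbr (s.u j) (s.w j)
      (s.β j) (bh j) (s.β' j) (hb j).1 (hb j).2.1 (hb j).2.2 (s.hβ j) (s.hβ' j) (s.hβ'R j)
    have a2 : sq (s.A j - ah j) ≤ 4 * δ ^ 2 := by
      have b1 : s.A j - ah j = (s.A j - s.α j) + (s.α j - ah j) := by abel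
      have b2 := sq_add (s.A j - s.α j) (s.α j - ah j)
      rw [← b1] at b2
      linarith [s.hA j, hα j]
    have a3 := he j
    have a4 := mul_le_mul_of_nonneg_left (a := s.ϖ j) (add_le_add (add_le_add a3 a2) a1) (s.hϖ j)
    linarith
  refine (Finset.sum_le_sum fun j _ ↦ hterm j).trans ?_
  rw [Finset.sum_add_distrib, Finset.sum_add_distrib, ← Finset.mul_sum, ← Finset.mul_sum,
    ← Finset.sum_mul]
  have h3 : (∑ j, s.ϖ j) * (215 * δ ^ 2) ≤ K * (215 * δ ^ 2) :=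
    mul_le_mul_of_nonneg_right s.hK (by positivity)
  have h4 : 0 ≤ K * δ ^ 2 := by positivity
  linarith

end Pool.Agent.Helper32.HL
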